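import Mathlib

/-!
# MP_2fa0cb_nt : the rank-two recurrence set of rational maps need not be semi-linear
-/

set_option autoImplicit false

namespace Pool.Agent.Results.MP_2fa0cb_nt.NotSemilinear

open Polynomial

/-- The self-map of the projective line `ℂ ∪ {∞}` given by a rational function `h`
(written `h = num / denom` in lowest terms, `denom` monic). -/
noncomputable def onP1 (h : RatFunc ℂ) : OnePoint ℂ → OnePoint ℂ
  | none =>
      letI := Classical.propDecidable (h.denom.natDegree < h.num.natDegree)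
      if h.denom.natDegree < h.num.natDegree then none
      else some (h.num.coeff h.denom.natDegree / h.denom.leadingCoeff)
  | some z =>
      letI := Classical.propDecidable (h.denom.eval z = 0)
      if h.denom.eval z = 0 then none else some (h.num.eval z / h.denom.eval z)

/-- The degree of a rational function: the maximum of the degrees of numerator and denominator
in lowest terms. -/
noncomputable def deg (h : RatFunc ℂ) : ℕ := max h.num.natDegree h.denom.natDegree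

/-- The set of pairs `(m, n)` for which some point `x` of the projective line satisfies
`c(x) = f^m(x) = g^n(x)`. -/
def recSet (f g c : RatFunc ℂ) : Set (ℕ × ℕ) :=
  {p | ∃ x : OnePoint ℂ, onP1 c x = (onP1 f)^[p.1] x ∧ (onP1 f)^[p.1] x = (onP1 g)^[p.2] x}

/-- The primitive fifth root of unity `exp (2 π i / 5)`. -/
noncomputable def ζ : ℂ := Complex.exp (2 * Real.pi * Complex.I / 5)

lemma ζ_prim : IsPrimitiveRoot ζ 5 := by
  have := Complex.isPrimitiveRoot_exp 5 (by norm_num)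
  simpa [ζ] using this

lemma ζ_ne : ζ ≠ 0 := Complex.exp_ne_zero _

/-! ### Fibres of semi-linear sets -/

/-- Vertical fibres are eventually closed under adding a fixed `q`. -/
def Q (S : Set (ℕ × ℕ)) : Prop :=
  ∃ q : ℕ, 1 ≤ q ∧ ∀ m : ℕ, ∃ B : ℕ, ∀ n : ℕ, B ≤ n → (m, n) ∈ S → ∀ s : ℕ, (m, n + q * s) ∈ S

lemma Q_empty : Q ∅ := ⟨1, le_refl _, fun _ => ⟨0, fun _ _ h => absurd h (Set.notMem_empty _)⟩⟩

lemma Q_union {S T : Set (ℕ × ℕ)} (hS : Q S) (hT : Q T) : Q (S ∪ T) := by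
  obtain ⟨q, hq, h1⟩ := hS
  obtain ⟨r, hr, h2⟩ := hT
  refine ⟨q * r, Nat.one_le_iff_ne_zero.mpr (by positivity), fun m => ?_⟩
  obtain ⟨B, hB⟩ := h1 m
  obtain ⟨C, hC⟩ := h2 m
  refine ⟨max B C, fun n hn h s => ?_⟩
  rcases h with h | h
  · left
    have := hB n (le_trans (le_max_left _ _) hn) h (r * s)
    rwa [← mul_assoc] at this
  · right
    have := hC n (le_trans (le_max_right _ _) hn) h (q * s)
    rwa [← mul_assoc, mul_comm r q] at this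

lemma Q_linear {S : Set (ℕ × ℕ)} (h : IsLinearSet S) : Q S := by
  obtain ⟨a, t, rfl⟩ := isLinearSet_iff.mp h
  by_cases hV : ∃ p ∈ t, p.1 = 0 ∧ p.2 ≠ 0
  · obtain ⟨p, hp, hp1, hp2⟩ := hV
    refine ⟨p.2, Nat.one_le_iff_ne_zero.mpr hp2, fun m => ⟨0, fun n _ hn s => ?_⟩⟩
    obtain ⟨v, hv, hva⟩ := hn
    refine ⟨v + s • p, add_mem hv (nsmul_mem (AddSubmonoid.subset_closure hp) s), ?_⟩
    simp only [vadd_eq_add] at hva ⊢
    rw [← add_assoc, hva]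
    ext
    · simp [hp1]
    · simp [mul_comm]
  · push Not at hV
    refine ⟨1, le_refl _, fun m => ⟨a.2 + m * (∑ p ∈ t, p.2) + 1, fun n hn hmn => ?_⟩⟩
    exfalso
    obtain ⟨v, hv, hva⟩ := hmn
    have key : v.2 ≤ v.1 * ∑ p ∈ t, p.2 := by
      refine AddSubmonoid.closure_induction (motive := fun v _ => v.2 ≤ v.1 * ∑ p ∈ t, p.2)
        ?_ ?_ ?_ hv
      · intro p hp
        by_cases h0 : p.1 = 0
        · rw [hV p hp h0]; exact Nat.zero_le _
        · calc p.2 ≤ ∑ p ∈ t, p.2 := Finset.single_le_sum (f := fun p : ℕ × ℕ => p.2)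
                (fun _ _ => Nat.zero_le _) hp
            _ ≤ p.1 * ∑ p ∈ t, p.2 := Nat.le_mul_of_pos_left _ (Nat.pos_of_ne_zero h0)
      · simp
      · intro x y _ _ hx hy
        simp only [Prod.snd_add, Prod.fst_add, add_mul]
        exact add_le_add hx hy
    simp only [vadd_eq_add] at hva
    have e1 : a.1 + v.1 = m := congrArg Prod.fst hva
    have e2 : a.2 + v.2 = n := congrArg Prod.snd hva
    have : v.1 * ∑ p ∈ t, p.2 ≤ m * ∑ p ∈ t, p.2 := Nat.mul_le_mul_right _ (by omega)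
    omega

lemma Q_semilinear {S : Set (ℕ × ℕ)} (h : IsSemilinearSet S) : Q S := by
  obtain ⟨F, hF, hlin, rfl⟩ := h
  revert hlin
  refine Set.Finite.induction_on (motive := fun F _ => (∀ t ∈ F, IsLinearSet t) → Q (⋃₀ F)) F hF
    ?_ ?_
  · intro _
    rw [Set.sUnion_empty]
    exact Q_empty
  · intro s F _ _ ih hl
    rw [Set.sUnion_insert]
    exact Q_union (Q_linear (hl s (Set.mem_insert _ _)))
      (ih fun t ht => hl t (Set.mem_insert_of_mem _ ht))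

/-! ### Arithmetic -/

/-- If `x ^ M = ζ = x ^ N` then every power of `5` dividing `M` divides `N`. -/
lemma dvd_of_pow_eq {x : ℂ} {M N k : ℕ} (hN0 : N ≠ 0) (hM : x ^ M = ζ) (hN : x ^ N = ζ)
    (hk : 5 ^ k ∣ M) : 5 ^ k ∣ N := by
  by_contra hc
  obtain ⟨b, N', hN', rfl⟩ := Nat.exists_eq_pow_mul_and_not_dvd hN0 5 (by norm_num)
  have hb : b < k := by
    by_contra hbk
    push Not at hbk
    exact hc ((pow_dvd_pow 5 hbk).trans (dvd_mul_right _ _))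
  obtain ⟨M', rfl⟩ := hk
  apply hN'
  rw [← ζ_prim.pow_eq_one_iff_dvd]
  have h1 : ζ ^ N' = (x ^ (5 ^ b * N')) ^ (5 ^ (k - b) * M') := by
    rw [← hM, ← pow_mul, ← pow_mul]
    congr 1
    have : 5 ^ k = 5 ^ b * 5 ^ (k - b) := by
      rw [← pow_add]; congr 1; omega
    rw [this]; ring
  rw [h1, hN, ζ_prim.pow_eq_one_iff_dvd]
  have : 5 ∣ 5 ^ (k - b) := dvd_pow_self 5 (by omega)
  exact this.trans (dvd_mul_right _ _)

/-- If `M ≡ N ≡ 5 ^ k` modulo `5 ^ (k + 1)` there is a common solution. -/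
lemma exists_sol {M N k : ℕ} (hM : M ≡ 5 ^ k [MOD 5 ^ (k + 1)]) (hN : N ≡ 5 ^ k [MOD 5 ^ (k + 1)]) :
    ∃ x : ℂ, x ≠ 0 ∧ x ^ M = ζ ∧ x ^ N = ζ := by
  set ω : ℂ := Complex.exp (2 * Real.pi * Complex.I / ((5 ^ (k + 1) : ℕ) : ℂ)) with hω
  have hprim : IsPrimitiveRoot ω (5 ^ (k + 1)) := Complex.isPrimitiveRoot_exp _ (by positivity)
  have h5 : ω ^ 5 ^ k = ζ := by
    rw [hω, ζ, ← Complex.exp_nat_mul]
    congr 1
    push_cast
    field_simp
    ring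
  have key : ∀ M : ℕ, M ≡ 5 ^ k [MOD 5 ^ (k + 1)] → ω ^ M = ζ := by
    intro M hM
    rw [← h5]
    exact pow_eq_pow_of_modEq hM hprim.pow_eq_one
  exact ⟨ω, hprim.ne_zero (by positivity), key M hM, key N hN⟩

/-- If `a ≡ 4` modulo `25` then `a ^ (5 ^ i) + 1 ≡ 5 ^ (i + 1)` modulo `5 ^ (i + 2)`. -/
lemma pow_five (a : ℤ) (ha : ∃ v : ℤ, a = -1 + 5 * (1 + 5 * v)) (i : ℕ) :
    ∃ v : ℤ, a ^ (5 ^ i) = -1 + 5 ^ (i + 1) * (1 + 5 * v) := by
  induction i with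
  | zero =>
    obtain ⟨v, hv⟩ := ha
    exact ⟨v, by rw [pow_zero, pow_one, hv]; ring⟩
  | succ i ih =>
    obtain ⟨v, hv⟩ := ih
    set u : ℤ := 1 + 5 * v with hu
    refine ⟨v - 2 * (5 ^ i * u ^ 2) + 2 * (5 ^ i * 5 ^ (i + 1) * u ^ 3)
      - (5 ^ i * 5 ^ (i + 1) * 5 ^ (i + 1) * u ^ 4)
      + (5 ^ i * 5 ^ (i + 1) * 5 ^ (i + 1) * 5 ^ i * u ^ 5) , ?_⟩
    rw [pow_succ 5 i, pow_mul, hv]
    have e : (1 : ℤ) + 5 * v = u := rfl
    have e1 : (5 : ℤ) ^ (i + 1 + 1) = 5 * (5 * 5 ^ i) := by ring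
    have e2 : (5 : ℤ) ^ (i + 1) = 5 * 5 ^ i := by ring
    rw [e1, e2, mul_add, mul_one]
    have hv' : 5 * v = u - 1 := by rw [hu]; ring
    have : 5 * (v - 2 * (5 ^ i * u ^ 2) + 2 * (5 ^ i * (5 * 5 ^ i) * u ^ 3)
      - (5 ^ i * (5 * 5 ^ i) * (5 * 5 ^ i) * u ^ 4)
      + (5 ^ i * (5 * 5 ^ i) * (5 * 5 ^ i) * 5 ^ i * u ^ 5)) =
      u - 1 + 5 * (- 2 * (5 ^ i * u ^ 2) + 2 * (5 ^ i * (5 * 5 ^ i) * u ^ 3)
      - (5 ^ i * (5 * 5 ^ i) * (5 * 5 ^ i) * u ^ 4)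
      + (5 ^ i * (5 * 5 ^ i) * (5 * 5 ^ i) * 5 ^ i * u ^ 5)) := by
      rw [← hv']; ring
    rw [this]
    ring

lemma modEq_of_eq {A : ℕ} {i : ℕ} {v : ℤ} (h : (A : ℤ) = -1 + 5 ^ (i + 1) * (1 + 5 * v)) :
    A + 1 ≡ 5 ^ (i + 1) [MOD 5 ^ (i + 1 + 1)] := by
  rw [← Int.natCast_modEq_iff]
  push_cast
  rw [h, Int.modEq_iff_dvd]
  exact ⟨-v, by ring⟩

lemma two_modEq (j : ℕ) : 2 ^ (2 * 5 ^ j) + 1 ≡ 5 ^ (j + 1) [MOD 5 ^ (j + 1 + 1)] := by
  obtain ⟨v, hv⟩ := pow_five 4 ⟨0, by norm_num⟩ j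
  apply modEq_of_eq (v := v)
  rw [← hv]
  push_cast
  rw [pow_mul]
  norm_num

lemma three_modEq (j : ℕ) : 3 ^ (6 * 5 ^ j) + 1 ≡ 5 ^ (j + 1) [MOD 5 ^ (j + 1 + 1)] := by
  obtain ⟨v, hv⟩ := pow_five 729 ⟨29, by norm_num⟩ j
  apply modEq_of_eq (v := v)
  rw [← hv]
  push_cast
  rw [pow_mul]
  norm_num

lemma three_modEq' (j t : ℕ) :
    3 ^ (6 * 5 ^ j + (4 * 5 ^ (j + 1)) * t) + 1 ≡ 5 ^ (j + 1) [MOD 5 ^ (j + 1 + 1)] := by
  have h1 : 3 ^ (4 * 5 ^ (j + 1)) ≡ 1 [MOD 5 ^ (j + 1 + 1)] := by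
    have := Nat.ModEq.pow_totient (x := 3) (n := 5 ^ (j + 1 + 1)) (by
      apply Nat.Coprime.pow_right; norm_num)
    rw [Nat.totient_prime_pow (by norm_num) (by omega)] at this
    have e : 5 ^ (j + 1 + 1 - 1) * (5 - 1) = 4 * 5 ^ (j + 1) := by
      rw [Nat.add_sub_cancel]; ring
    rwa [e] at this
  have h2 : 3 ^ (6 * 5 ^ j + (4 * 5 ^ (j + 1)) * t) ≡ 3 ^ (6 * 5 ^ j) [MOD 5 ^ (j + 1 + 1)] := by
    rw [pow_add 3, pow_mul 3 (4 * 5 ^ (j + 1)) t]
    simpa using (Nat.ModEq.refl (3 ^ (6 * 5 ^ j))).mul (h1.pow t)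
  exact (h2.add_right 1).trans (three_modEq j)

/-! ### The maps -/

lemma num_pow (k : ℕ) : (RatFunc.X ^ k : RatFunc ℂ).num = X ^ k := by
  rw [← RatFunc.algebraMap_X, ← map_pow, RatFunc.num_algebraMap]

lemma denom_pow (k : ℕ) : (RatFunc.X ^ k : RatFunc ℂ).denom = 1 := by
  rw [← RatFunc.algebraMap_X, ← map_pow, RatFunc.denom_algebraMap]

lemma onP1_pow_some (k : ℕ) (z : ℂ) : onP1 (RatFunc.X ^ k) (some z) = some (z ^ k) := by
  simp [onP1, num_pow, denom_pow]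

lemma onP1_pow_inf (k : ℕ) (hk : 0 < k) : onP1 (RatFunc.X ^ k) none = none := by
  simp [onP1, num_pow, denom_pow, hk]

lemma iter_some (k n : ℕ) (z : ℂ) : (onP1 (RatFunc.X ^ k))^[n] (some z) = some (z ^ k ^ n) := by
  induction n with
  | zero => simp
  | succ n ih => rw [Function.iterate_succ_apply', ih, onP1_pow_some, ← pow_mul, pow_succ]

lemma iter_inf (k n : ℕ) (hk : 0 < k) : (onP1 (RatFunc.X ^ k))^[n] none = none := by
  induction n with
  | zero => simp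
  | succ n ih => rw [Function.iterate_succ_apply', ih, onP1_pow_inf k hk]

lemma gcd_aux : gcd (C ζ : ℂ[X]) X = 1 := by
  have : IsUnit (gcd (C ζ : ℂ[X]) X) := by
    apply isUnit_of_dvd_unit (gcd_dvd_left _ _)
    exact (isUnit_C.mpr (isUnit_iff_ne_zero.mpr ζ_ne))
  rw [← normalize_gcd, normalize_eq_one.mpr this]

/-- The rational function `ζ / z`. -/
noncomputable def c0 : RatFunc ℂ := RatFunc.C ζ / RatFunc.X

lemma c0_eq : c0 = algebraMap ℂ[X] (RatFunc ℂ) (C ζ) / algebraMap ℂ[X] (RatFunc ℂ) X := by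
  rw [c0, RatFunc.algebraMap_C, RatFunc.algebraMap_X]

lemma num_c0 : c0.num = C ζ := by
  rw [c0_eq, RatFunc.num_div, gcd_aux]
  simp

lemma denom_c0 : c0.denom = X := by
  rw [c0_eq, RatFunc.denom_div _ X_ne_zero, gcd_aux]
  simp

lemma onP1_c0_some (z : ℂ) (hz : z ≠ 0) : onP1 c0 (some z) = some (ζ / z) := by
  simp [onP1, num_c0, denom_c0, hz]

lemma onP1_c0_zero : onP1 c0 (some 0) = none := by
  simp [onP1, denom_c0]

lemma onP1_c0_inf : onP1 c0 none = some 0 := by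
  simp [onP1, num_c0, denom_c0]

lemma mem_iff (m n : ℕ) : (m, n) ∈ recSet (RatFunc.X ^ 2) (RatFunc.X ^ 3) c0 ↔
    ∃ x : ℂ, x ≠ 0 ∧ x ^ (2 ^ m + 1) = ζ ∧ x ^ (3 ^ n + 1) = ζ := by
  constructor
  · rintro ⟨x, h1, h2⟩
    rcases x with _ | x
    · change onP1 c0 none = (onP1 (RatFunc.X ^ 2))^[m] none at h1
      rw [onP1_c0_inf, iter_inf 2 m (by norm_num)] at h1
      exact absurd h1 (by simp)
    · change onP1 c0 (some x) = (onP1 (RatFunc.X ^ 2))^[m] (some x) at h1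
      change (onP1 (RatFunc.X ^ 2))^[m] (some x) = (onP1 (RatFunc.X ^ 3))^[n] (some x) at h2
      rw [iter_some] at h1 h2
      rw [iter_some] at h2
      by_cases hx : x = 0
      · subst hx
        rw [onP1_c0_zero] at h1
        exact absurd h1 (by simp)
      · rw [onP1_c0_some x hx] at h1
        have e1 : ζ / x = x ^ 2 ^ m := Option.some.inj h1
        have e2 : x ^ 2 ^ m = x ^ 3 ^ n := Option.some.inj h2
        refine ⟨x, hx, ?_, ?_⟩
        · rw [pow_succ, ← e1]; field_simp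
        · rw [pow_succ, ← e2, ← e1]; field_simp
  · rintro ⟨x, hx, h1, h2⟩
    refine ⟨some x, ?_, ?_⟩
    · change onP1 c0 (some x) = (onP1 (RatFunc.X ^ 2))^[m] (some x)
      rw [iter_some, onP1_c0_some x hx, ← h1, pow_succ]
      congr 1
      field_simp
    · change (onP1 (RatFunc.X ^ 2))^[m] (some x) = (onP1 (RatFunc.X ^ 3))^[n] (some x)
      rw [iter_some, iter_some]
      congr 1
      have : x ^ 2 ^ m * x = x ^ 3 ^ n * x := by rw [← pow_succ, ← pow_succ, h1, h2]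
      exact mul_right_cancel₀ hx this

/-- For `f(z) = z ^ 2`, `g(z) = z ^ 3` and `c(z) = ζ / z` with `ζ = exp (2 π i / 5)` the set of
pairs `(m, n)` such that `c(x) = f^m(x) = g^n(x)` has a solution `x` on the projective line is
not semi-linear. -/
theorem result :
    deg (RatFunc.X ^ 2) = 2 ∧ deg (RatFunc.X ^ 3) = 3 ∧
      ¬ IsSemilinearSet (recSet (RatFunc.X ^ 2) (RatFunc.X ^ 3)
        (RatFunc.C (Complex.exp (2 * Real.pi * Complex.I / 5)) / RatFunc.X)) := by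
  refine ⟨by simp [deg, num_pow, denom_pow], by simp [deg, num_pow, denom_pow], fun h => ?_⟩
  change IsSemilinearSet (recSet (RatFunc.X ^ 2) (RatFunc.X ^ 3) c0) at h
  obtain ⟨q, hq, hQ⟩ := Q_semilinear h
  -- choose `j` with `5 ^ (j + 1) > 3 ^ (4 q)`
  obtain ⟨j, hj⟩ : ∃ j : ℕ, 3 ^ (4 * q) < 5 ^ (j + 1) :=
    ⟨3 ^ (4 * q), lt_of_lt_of_le (Nat.lt_pow_self (by norm_num))
      (Nat.pow_le_pow_right (by norm_num) (Nat.le_succ _))⟩
  obtain ⟨B, hB⟩ := hQ (2 * 5 ^ j)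
  set n : ℕ := 6 * 5 ^ j + (4 * 5 ^ (j + 1)) * B with hn
  have hnB : B ≤ n := by
    have : 1 ≤ 4 * 5 ^ (j + 1) := Nat.one_le_iff_ne_zero.mpr (by positivity)
    calc B ≤ (4 * 5 ^ (j + 1)) * B := Nat.le_mul_of_pos_left _ this
      _ ≤ n := by rw [hn]; exact Nat.le_add_left _ _
  have hmem : (2 * 5 ^ j, n) ∈ recSet (RatFunc.X ^ 2) (RatFunc.X ^ 3) c0 := by
    rw [mem_iff]
    exact exists_sol (two_modEq j) (three_modEq' j B)
  have hmem' := hB n hnB hmem 4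
  rw [mem_iff] at hmem'
  obtain ⟨x, hx, h1, h2⟩ := hmem'
  have d1 : 5 ^ (j + 1) ∣ 2 ^ (2 * 5 ^ j) + 1 := by
    have := (two_modEq j).of_dvd (pow_dvd_pow 5 (Nat.le_succ (j + 1)))
    exact (Nat.modEq_zero_iff_dvd.mp (this.trans (by simp [Nat.ModEq])))
  have d2 : 5 ^ (j + 1) ∣ 3 ^ n + 1 := by
    have := (three_modEq' j B).of_dvd (pow_dvd_pow 5 (Nat.le_succ (j + 1)))
    exact (Nat.modEq_zero_iff_dvd.mp (this.trans (by simp [Nat.ModEq])))
  have d3 : 5 ^ (j + 1) ∣ 3 ^ (n + q * 4) + 1 := dvd_of_pow_eq (by positivity) h1 h2 d1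
  have d4 : 5 ^ (j + 1) ∣ 3 ^ (4 * q) - 1 := by
    have e : 3 ^ (n + q * 4) + 1 + (3 ^ (4 * q) - 1) = 3 ^ (4 * q) * (3 ^ n + 1) := by
      have : 1 ≤ 3 ^ (4 * q) := Nat.one_le_pow _ _ (by norm_num)
      rw [pow_add, mul_add, mul_one, mul_comm q 4, mul_comm (3 ^ n)]
      omega
    have := d2.mul_left (3 ^ (4 * q))
    rw [← e] at this
    exact (Nat.dvd_add_right d3).mp this
  have hpos : 0 < 3 ^ (4 * q) - 1 := by
    have : 3 ^ 1 ≤ 3 ^ (4 * q) := Nat.pow_le_pow_right (by norm_num) (by omega)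
    omega
  have := Nat.le_of_dvd hpos d4
  omega

end Pool.Agent.Results.MP_2fa0cb_nt.NotSemilinear
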